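import Pool.Agent.H27.CAL.Stmts2

/-!
# Project CAL, module BIO: biorthogonality and reconstruction
-/

open scoped BigOperators ENNReal Topology
open Filter

namespace CAL

section
variable {𝕜 : Type*} [RCLike 𝕜] {A : Type*} [PartialOrder A] {Y : Type*} [NormedAddCommGroup Y]
  [NormedSpace 𝕜 Y] {τ : TreeLev A}

theorem bio_evX_zero (D : Dat 𝕜 Y τ) (b : Fn 𝕜 A Y) (u : D.X)
    (h1 : ∀ β ∈ b.1.support, D.co β u = 0) (h2 : ∀ a ∈ b.2.support, D.nd a u = 0) :
    D.evX b u = 0 := by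
  have h := D.norm_evX_le' b u (C := 0) (fun β hβ => by rw [h1 β hβ, norm_zero])
    (fun a ha => by rw [h2 a ha, norm_zero])
  rw [mul_zero] at h
  exact norm_le_zero_iff.1 h

theorem bio_zero (D : Dat 𝕜 Y τ) (hB : BIOBStmt D) (hE : EVALStmt D) (p : ℕ) (u : D.X)
    (h1 : ∀ a, τ.lev a ≤ p → D.dn a u = 0) (h2 : ∀ γ, D.lev γ ≤ p → D.ds γ u = 0) :
    (∀ a, τ.lev a ≤ p → D.nd a u = 0) ∧ (∀ γ, D.lev γ ≤ p → D.co γ u = 0) := by
  obtain ⟨-, -, -, -, hnd, hPX⟩ := hB
  obtain ⟨e1, e2, -⟩ := hE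
  have key : ∀ n, n ≤ p → (∀ a, τ.lev a ≤ n → D.nd a u = 0) ∧
      (∀ γ, D.lev γ ≤ n → D.co γ u = 0) := by
    intro n
    induction n with
    | zero =>
      intro _
      exact ⟨fun a ha => absurd (τ.lev_pos a) (by omega),
        fun γ hγ => absurd (D.lev_pos γ) (by omega)⟩
    | succ n ih =>
      intro hn
      obtain ⟨i1, i2⟩ := ih (by omega)
      have hN : ∀ a, τ.lev a ≤ n + 1 → D.nd a u = 0 := by
        intro a ha
        rw [hnd a u, h1 a (ha.trans hn), zero_add]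
        rcases hr : τ.ret (τ.lev a - 1) a with _ | b
        · rfl
        · have hb := (τ.ret_eq_some.1 hr).2.1
          have hpos := τ.lev_pos a
          exact i1 b (by omega)
      refine ⟨hN, fun γ hγ => ?_⟩
      have hev : ∀ v : D.X, (∀ β, D.lev β ≤ n → D.co β v = 0) → (∀ a, τ.lev a ≤ n → D.nd a v = 0) →
          D.evX (D.b γ) v = 0 := by
        intro v hv1 hv2
        refine bio_evX_zero D _ v (fun β hβ => hv1 β ?_) (fun a ha => hv2 a ?_)
        · have := D.b_sc γ β hβ; omega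
        · have := D.b_nd γ a ha; omega
      rcases hpr : D.pred γ with _ | ξ
      · rw [e1 γ u hpr, h2 γ (hγ.trans hn), hev u i2 i1]
        simp
      · have hξ := D.pred_lev γ ξ hpr
        have hz : D.PX (D.lev ξ) u = 0 :=
          hPX (D.lev ξ) u (fun a ha => i1 a (by omega)) (fun β hβ => i2 β (by omega))
        rw [e2 γ ξ u hpr, h2 γ (hγ.trans hn), i2 ξ (by omega), hev u i2 i1, hz]
        simp
  exact key p le_rfl

/-- BIO -/
theorem cal_bio (D : Dat 𝕜 Y τ) (hA : BIOAStmt D) (hB : BIOBStmt D) (hE : EVALStmt D) :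
    BIOStmt D := by
  obtain ⟨a1, a2, a3, a4, a5, a6, a7, a8⟩ := hA
  have hB' := hB
  obtain ⟨b1, b2, b3, b4, b5, b6⟩ := hB
  refine ⟨a1, a2, a3, a4, a5, a6, a7, a8, b1, b2, b3, b4, b5, ?_⟩
  classical
  intro p N G hN hG x
  set r : D.X := ∑ a ∈ N, D.Jn a (D.dn a x) + ∑ γ ∈ G, D.ds γ x • D.dv γ with hr
  have hpx : ∀ v : D.X, ∀ q, D.PX q v = v → q ≤ p → D.PX p v = v := by
    intro v q hv hq
    rw [← hv, D.PX_PX, min_eq_right hq]
  have hPr : D.PX p r = r := by
    rw [hr, map_add, map_sum, map_sum]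
    congr 1
    · exact Finset.sum_congr rfl fun a ha => hpx _ _ (a7 a _).2 ((hN a).1 ha)
    · refine Finset.sum_congr rfl fun γ hγ => ?_
      rw [map_smul]
      congr 1
      exact hpx _ _ (a8 γ).2 ((hG γ).1 hγ)
  have hdn : ∀ b, τ.lev b ≤ p → D.dn b r = D.dn b x := by
    intro b hb
    rw [hr, map_add, map_sum, map_sum]
    have h1 : ∑ a ∈ N, D.dn b (D.Jn a (D.dn a x)) = D.dn b x := by
      rw [Finset.sum_eq_single b]
      · rw [a2]; simp
      · intro a _ hab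
        rw [a2]; simp [hab]
      · intro h; exact absurd ((hN b).2 hb) h
    have h2 : ∑ γ ∈ G, D.dn b (D.ds γ x • D.dv γ) = 0 :=
      Finset.sum_eq_zero fun γ _ => by rw [map_smul, a4, smul_zero]
    rw [h1, h2, add_zero]
  have hds : ∀ β, D.lev β ≤ p → D.ds β r = D.ds β x := by
    intro β hβ
    rw [hr, map_add, map_sum, map_sum]
    have h1 : ∑ a ∈ N, D.ds β (D.Jn a (D.dn a x)) = 0 :=
      Finset.sum_eq_zero fun a _ => a3 a β _
    have h2 : ∑ γ ∈ G, D.ds β (D.ds γ x • D.dv γ) = D.ds β x := by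
      rw [Finset.sum_eq_single β]
      · rw [map_smul, a5]; simp
      · intro γ _ hγ
        rw [map_smul, a5, if_neg (fun h => hγ h.symm)]; simp
      · intro h; exact absurd ((hG β).2 hβ) h
    rw [h1, h2, zero_add]
  have hz := bio_zero D hB' hE p (D.PX p x - r)
    (fun a ha => by rw [map_sub, b1 p a x ha, hdn a ha, sub_self])
    (fun γ hγ => by rw [map_sub, b3 p γ x hγ, hds γ hγ, sub_self])
  have h0 := b6 p (D.PX p x - r) hz.1 hz.2
  rw [map_sub, D.PX_PX, min_self, hPr] at h0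
  exact sub_eq_zero.1 h0

end

end CAL
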