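import Pool.Agent.H27.CAL.Stmts2

/-!
# Project CAL, module DEPB: coding comparison
-/

open scoped BigOperators ENNReal Topology
open Filter

namespace CAL

section
variable {𝕜 : Type*} [RCLike 𝕜] {A : Type*} [PartialOrder A] {Y : Type*} [NormedAddCommGroup Y]
  [NormedSpace 𝕜 Y] {τ : TreeLev A}

/-- DEPB -/
theorem cal_depb (D : Dat 𝕜 Y τ) (hA : ANCStmt D) (hU : UNSPStmt D) : DEPBStmt D := by
  classical
  intro Ch F w R C j0 n y t η ξ hC hj0 S
  obtain ⟨c1, -, c3, -⟩ := hA
  have hO : ∀ r < n, D.wt (ξ r) ∈ w.O := fun r hr => by rw [S.wt r hr]; exact hj0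
  have hsucc : ∀ r, r + 1 < n → D.wt (η (r + 1)) = R.sg (ξ r) := by
    intro r hr
    have h := R.odd_some (ξ (r + 1)) (ξ r) (hO _ hr) (S.some r hr)
    rwa [S.th _ hr] at h
  have hlev : ∀ r, r + 1 < n → D.lev (ξ r) < D.wt (η (r + 1)) := by
    intro r hr
    rw [hsucc r hr]
    exact R.sg_lt _
  have hwt : ∀ r < n, j0 < D.wt (η r) := by
    intro r hr
    rcases r with _ | r
    · have h := (R.odd_none (ξ 0) (hO 0 hr) S.none).2
      rwa [S.th 0 hr, S.wt 0 hr] at h
    · have h := hlev r hr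
      have h1 := D.wt_le (ξ r)
      rw [S.wt r (by omega)] at h1
      omega
  refine ⟨hwt, hlev, fun γ hγ => ?_⟩
  have hγO : D.wt γ ∈ w.O := by rw [hγ]; exact hj0
  have hdep : ∀ r < n, (∀ ζ, D.Anc ζ γ → D.wt (R.th ζ) ≠ D.wt (η r)) →
      ‖D.co γ (y r)‖ ≤ C * (mm j0)⁻¹ ^ 2 := by
    intro r hr hζ
    have h := (S.ex r hr).dep γ hγO (by rw [hγ]; exact hwt r hr) hζ
    rwa [hγ] at h
  by_cases hex : ∃ r < n, ∃ ζ, D.Anc ζ γ ∧ D.wt (R.th ζ) = D.wt (η r)
  · obtain ⟨r1, hr1, hr1'⟩ := hex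
    set G : Finset ℕ := (Finset.range n).filter
      (fun r => ∃ ζ, D.Anc ζ γ ∧ D.wt (R.th ζ) = D.wt (η r)) with hG
    have hne : G.Nonempty := ⟨r1, by rw [hG, Finset.mem_filter, Finset.mem_range]; exact ⟨hr1, hr1'⟩⟩
    have hmem := G.max'_mem hne
    set r0 := G.max' hne with hr0
    rw [hG, Finset.mem_filter, Finset.mem_range] at hmem
    obtain ⟨hr0n, ζ0, hζ0, hζ0'⟩ := hmem
    refine ⟨r0, fun r hr hne' => ?_⟩
    rcases lt_or_gt_of_ne hne' with hlt | hgt
    · -- below r0
      obtain ⟨q, hq⟩ : ∃ q, r0 = q + 1 := ⟨r0 - 1, by omega⟩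
      have hqn : q + 1 < n := by omega
      rw [hq, hsucc q hqn] at hζ0'
      have hζO : D.wt ζ0 ∈ w.O := by
        rw [(c1 ζ0 γ hζ0).2.1]; exact hγO
      have hξγ : D.Anc (ξ q) γ := by
        rcases hp : D.pred ζ0 with _ | ζ'
        · have h := (R.odd_none ζ0 hζO hp).1
          rw [hζ0'] at h
          exact absurd (R.sg_mem (ξ q)) (Set.disjoint_left.1 w.e12 h)
        · have h := R.odd_some ζ0 ζ' hζO hp
          rw [hζ0'] at h
          have h' := R.sg_inj h
          rw [h']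
          exact c3 _ _ _ (Dat.Anc.step hp (Dat.Anc.refl ζ')) hζ0
      have hchain : ∀ m, m ≤ q → D.Anc (ξ (q - m)) (ξ q) := by
        intro m
        induction m with
        | zero => intro _; exact Dat.Anc.refl _
        | succ m ih =>
          intro hm
          have h1 := ih (by omega)
          have h2 := S.some (q - (m + 1)) (by omega)
          have h3 : q - (m + 1) + 1 = q - m := by omega
          rw [h3] at h2
          exact c3 _ _ _ (Dat.Anc.step h2 (Dat.Anc.refl _)) h1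
      have hrγ : D.Anc (ξ r) γ := by
        have h := hchain (q - r) (by omega)
        have h1 : q - (q - r) = r := by omega
        rw [h1] at h
        exact c3 _ _ _ h hξγ
      have hE := S.ex r hr
      have hu := hU (ξ r) γ _ _ (y r) hrγ hE.ran (hE.lt.trans (S.lv r hr)) (by
        intro ξ' hξ'
        rcases r with _ | r
        · rw [S.none] at hξ'
          exact absurd hξ' (by simp)
        · rw [S.some r hr] at hξ'
          have : ξ r = ξ' := Option.some.inj hξ'
          rw [← this]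
          simp)
      rw [R.odd_b (ξ r) (hO r hr), S.th r hr, D.evX_apply, ev_single, ← D.co_apply, hγ] at hu
      rw [hu, norm_mul, norm_mi]
      have hz := hE.z
      have hm := mm_inv_pos j0
      calc (mm j0)⁻¹ * ‖D.co (η r) (y r)‖ ≤ (mm j0)⁻¹ * (mm j0)⁻¹ :=
            mul_le_mul_of_nonneg_left hz hm.le
        _ = 1 * (mm j0)⁻¹ ^ 2 := by ring
        _ ≤ C * (mm j0)⁻¹ ^ 2 := mul_le_mul_of_nonneg_right hC (by positivity)
    · refine hdep r hr fun ζ hζ hζ' => ?_
      have hrG : r ∈ G := by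
        rw [hG, Finset.mem_filter, Finset.mem_range]
        exact ⟨hr, ζ, hζ, hζ'⟩
      have := G.le_max' r hrG
      omega
  · refine ⟨n, fun r hr _ => hdep r hr fun ζ hζ hζ' => hex ⟨r, hr, ζ, hζ, hζ'⟩⟩

end

end CAL
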