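import Pool.Agent.H27.CAL.Stmts2

/-!
# Project CAL, module HFR: without nodes the projections have finite rank
-/

open scoped BigOperators ENNReal Topology
open Filter

namespace CAL

section
variable {𝕜 : Type*} [RCLike 𝕜] {A : Type*} [PartialOrder A] {Y : Type*} [NormedAddCommGroup Y]
  [NormedSpace 𝕜 Y] {τ : TreeLev A}

theorem hfr_rank {X : Type*} [NormedAddCommGroup X] [NormedSpace 𝕜 X] {Z : Type*}
    [NormedAddCommGroup Z] [NormedSpace 𝕜 Z] (G : Finset ℕ) (f : ℕ → X →L[𝕜] 𝕜) (z : ℕ → Z) :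
    IsCompactOperator (fun x : X => ∑ γ ∈ G, f γ x • z γ) := by
  classical
  induction G using Finset.induction_on with
  | empty =>
    have h := isCompactOperator_zero (M₁ := X) (M₂ := Z)
    have he : (fun x : X => ∑ γ ∈ (∅ : Finset ℕ), f γ x • z γ) = 0 := by
      funext x; simp
    rw [he]; exact h
  | insert γ G hγ ih =>
    have h1 : IsCompactOperator (fun x : X => f γ x • z γ) := by
      have h2 : IsCompactOperator (fun c : 𝕜 => c • z γ) :=
        isCompactOperator_of_locallyCompactSpace_rng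
          (ContinuousLinearMap.toSpanSingleton 𝕜 (z γ))
      exact h2.comp_clm (f γ)
    have h4 := h1.add ih
    have he : (fun x : X => ∑ β ∈ insert γ G, f β x • z β) =
        (fun x : X => f γ x • z γ) + (fun x : X => ∑ β ∈ G, f β x • z β) := by
      funext x
      rw [Finset.sum_insert hγ]
      rfl
    rw [he]; exact h4

/-- HFR -/
theorem cal_hfr (D : Dat 𝕜 Y τ) (Z : Type*) [NormedAddCommGroup Z] [NormedSpace 𝕜 Z]
    (hB : BIOStmt D) : HFRStmt D Z := by
  intro hA p T
  obtain ⟨-, -, -, -, -, -, -, -, -, -, -, -, -, hrec⟩ := hB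
  have hG : ∀ γ, γ ∈ (D.fin p).toFinset ↔ D.lev γ ≤ p := by
    intro γ
    rw [Set.Finite.mem_toFinset]
    rfl
  have h := hfr_rank (D.fin p).toFinset (fun γ => D.ds γ) (fun γ => T (D.dv γ))
  have he : ((T.comp (D.PX p) : D.X →L[𝕜] Z) : D.X → Z) =
      fun x : D.X => ∑ γ ∈ (D.fin p).toFinset, D.ds γ x • T (D.dv γ) := by
    funext x
    have hx := hrec p ∅ (D.fin p).toFinset (fun a => (hA.false a).elim) hG x
    rw [Finset.sum_empty, zero_add] at hx
    rw [ContinuousLinearMap.comp_apply, hx, map_sum]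
    exact Finset.sum_congr rfl fun γ _ => T.map_smul _ _
  rw [he]; exact h

end

end CAL
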