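import Pool.Agent.H27.CAL.Stmts2

/-!
# Project CAL, module LEVW: coordinates of large weight
-/

open scoped BigOperators ENNReal Topology
open Filter

namespace CAL

section
variable {𝕜 : Type*} [RCLike 𝕜] {A : Type*} [PartialOrder A] {Y : Type*} [NormedAddCommGroup Y]
  [NormedSpace 𝕜 Y] {τ : TreeLev A}

/-- LEVW -/
theorem cal_levw (D : Dat 𝕜 Y τ) : LEVWStmt D := by
  intro t x
  have key : ∀ n, ∀ γ, D.lev γ ≤ n → D.PX t x = x → t < D.wt γ →
      ‖D.co γ x‖ ≤ (mm (D.wt γ))⁻¹ * ‖x‖ := by
    intro n
    induction n with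
    | zero => intro γ hγ; exact absurd (D.lev_pos γ) (by omega)
    | succ n ih =>
      intro γ hγ hx ht
      have hw := D.wt_le γ
      have hlt : t < D.lev γ := lt_of_lt_of_le ht hw
      rcases hpr : D.pred γ with _ | ξ
      · have h := D.co_PX_none x hlt hpr
        rw [hx] at h
        rw [h, norm_mul, norm_mi]
        refine mul_le_mul_of_nonneg_left ?_ (mm_inv_pos _).le
        refine (D.norm_evX_le _ _).trans ?_
        have h1 := D.b_norm γ
        have h2 := norm_nonneg x
        nlinarith
      · have hξ := D.pred_lev γ ξ hpr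
        have hwξ := D.pred_wt γ ξ hpr
        have hwl := D.wt_le ξ
        have h := D.co_PX_some x hlt hpr
        rw [min_eq_left (by omega), hx, sub_self, mul_zero, add_zero] at h
        rw [h, ← hwξ]
        exact ih ξ (by omega) hx (by omega)
  intro γ hx ht
  exact key _ γ le_rfl hx ht

end

end CAL
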